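import Mathlib

set_option autoImplicit false

/-!
A convex body `K` of dimension `d` contains a translate of a centrally symmetric set of measure
at least `2 ^ (-d) μ K`, and the size of separated subsets of `K` with respect to this set.
-/

namespace Pool.Agent.N605.RB

open MeasureTheory Module
open scoped Pointwise ENNReal

section Geo

variable {E : Type*} [NormedAddCommGroup E] [NormedSpace ℝ E] [FiniteDimensional ℝ E]

/-- The part of `K` which is symmetric about `p`, translated to the origin. -/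
def symPart (K : Set E) (p : E) : Set E := {s | p + s ∈ K ∧ p - s ∈ K}

omit [NormedSpace ℝ E] [FiniteDimensional ℝ E] in
theorem symPart_neg {K : Set E} {p s : E} (h : s ∈ symPart K p) : -s ∈ symPart K p :=
  ⟨by simpa [sub_eq_add_neg] using h.2, by simpa using h.1⟩

omit [FiniteDimensional ℝ E] in
theorem symPart_convex {K : Set E} (hK : Convex ℝ K) (p : E) : Convex ℝ (symPart K p) := by
  intro x hx y hy a b ha hb hab
  constructor
  · have := hK hx.1 hy.1 ha hb hab
    have e : p + (a • x + b • y) = a • (p + x) + b • (p + y) := by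
      rw [smul_add, smul_add]
      nth_rewrite 1 [show p = a • p + b • p by rw [← add_smul, hab, one_smul]]
      abel
    rw [e]; exact this
  · have := hK hx.2 hy.2 ha hb hab
    have e : p - (a • x + b • y) = a • (p - x) + b • (p - y) := by
      rw [smul_sub, smul_sub]
      nth_rewrite 1 [show p = a • p + b • p by rw [← add_smul, hab, one_smul]]
      abel
    rw [e]; exact this

variable [MeasurableSpace E] [BorelSpace E] (μ : Measure E) [μ.IsAddHaarMeasure]

/-- There is a point `p` such that the part of `K` which is symmetric about `p` has measure at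
least `2 ^ (-d) μ K`. -/
theorem exists_symPart (K : Set E) (hK : Convex ℝ K) (hKc : IsCompact K)
    (hKi : (interior K).Nonempty) :
    ∃ p : E, μ K ≤ 2 ^ finrank ℝ E * μ (symPart K p) := by
  set d := finrank ℝ E with hd
  have hKm : MeasurableSet K := hKc.isClosed.measurableSet
  have hμ0 : μ K ≠ 0 := fun h => by
    have h1 := isOpen_interior.measure_pos μ hKi
    have h2 : μ (interior K) ≤ μ K := measure_mono interior_subset
    rw [h] at h2
    exact absurd h1 (not_lt.mpr h2)
  have hμf : μ K ≠ ⊤ := hKc.measure_lt_top.ne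
  let g : E → ℝ≥0∞ := fun x => ∫⁻ y, K.indicator 1 y * K.indicator 1 (x - y) ∂μ
  have hmeas : Measurable (Function.uncurry fun x y : E =>
      K.indicator (1 : E → ℝ≥0∞) y * K.indicator (1 : E → ℝ≥0∞) (x - y)) := by
    have h1 : Measurable (K.indicator (1 : E → ℝ≥0∞)) := measurable_one.indicator hKm
    exact (h1.comp measurable_snd).mul (h1.comp (measurable_fst.sub measurable_snd))
  have hint : ∫⁻ x, g x ∂μ = μ K * μ K := by
    have h1 : ∫⁻ x, g x ∂μ =
        ∫⁻ y, ∫⁻ x, K.indicator 1 y * K.indicator 1 (x - y) ∂μ ∂μ :=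
      lintegral_lintegral_swap hmeas.aemeasurable
    rw [h1]
    have h2 : ∀ y : E, ∫⁻ x, K.indicator (1 : E → ℝ≥0∞) y * K.indicator 1 (x - y) ∂μ =
        K.indicator 1 y * μ K := by
      intro y
      rw [lintegral_const_mul]
      · congr 1
        rw [lintegral_sub_right_eq_self (fun x => K.indicator (1 : E → ℝ≥0∞) x) y]
        rw [lintegral_indicator_one hKm]
      · exact (measurable_one.indicator hKm).comp (measurable_id.sub_const y)
    simp only [h2]
    rw [lintegral_mul_const _ (measurable_one.indicator hKm), lintegral_indicator_one hKm]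
  have hsupp : ∀ x, x ∉ (2 : ℝ) • K → g x = 0 := by
    intro x hx
    have : ∀ y, K.indicator (1 : E → ℝ≥0∞) y * K.indicator 1 (x - y) = 0 := by
      intro y
      by_cases h1 : y ∈ K
      · by_cases h2 : x - y ∈ K
        · exfalso
          apply hx
          refine ⟨(1 / 2 : ℝ) • y + (1 / 2 : ℝ) • (x - y),
            hK h1 h2 (by norm_num) (by norm_num) (by norm_num), ?_⟩
          simp only [smul_add, smul_smul]
          norm_num
        · simp [h2]
      · simp [h1]
    simp [g, this]
  have h2K : μ ((2 : ℝ) • K) = 2 ^ d * μ K := by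
    rw [Measure.addHaar_smul, abs_of_nonneg (by positivity),
      ENNReal.ofReal_pow (by norm_num)]
    norm_num [hd]
  have h2K0 : μ ((2 : ℝ) • K) ≠ 0 := by
    rw [h2K]; exact mul_ne_zero (by positivity) hμ0
  have h2Kf : μ ((2 : ℝ) • K) ≠ ⊤ := (hKc.smul 2).measure_lt_top.ne
  have hset : ∫⁻ x in (2 : ℝ) • K, g x ∂μ = μ K * μ K := by
    rw [← hint, setLIntegral_eq_of_support_subset]
    intro x hx
    by_contra h
    exact hx (hsupp x h)
  obtain ⟨x, -, hx⟩ := exists_setLAverage_le (μ := μ) (s := (2 : ℝ) • K) (f := g) h2K0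
    (hKc.smul 2).isClosed.measurableSet.nullMeasurableSet (by
      rw [hset]; exact ENNReal.mul_ne_top hμf hμf)
  rw [setLAverage_eq, hset, h2K] at hx
  refine ⟨(1 / 2 : ℝ) • x, ?_⟩
  have hS : μ (symPart K ((1 / 2 : ℝ) • x)) = g x := by
    have h1 : g x = μ (K ∩ {y | x - y ∈ K}) := by
      have h3 : MeasurableSet {y | x - y ∈ K} :=
        (measurable_const.sub measurable_id) hKm
      rw [← lintegral_indicator_one (hKm.inter h3)]
      apply lintegral_congr
      intro y
      by_cases h1 : y ∈ K <;> by_cases h2 : x - y ∈ K <;> simp [h1, h2]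
    rw [h1]
    have h2 : symPart K ((1 / 2 : ℝ) • x) =
        (fun s => (1 / 2 : ℝ) • x + s) ⁻¹' (K ∩ {y | x - y ∈ K}) := by
      ext s
      simp only [symPart, Set.mem_ofPred_eq, Set.mem_preimage, Set.mem_inter_iff]
      have e : x - ((1 / 2 : ℝ) • x + s) = (1 / 2 : ℝ) • x - s := by
        nth_rewrite 1 [show x = (1 / 2 : ℝ) • x + (1 / 2 : ℝ) • x by
          rw [← add_smul]; norm_num]
        abel
      rw [e]
    rw [h2, measure_preimage_add]
  rw [hS]
  calc μ K = 2 ^ d * (μ K * μ K / (2 ^ d * μ K)) := by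
        rw [ENNReal.mul_div_mul_right _ _ hμ0 hμf]
        rw [ENNReal.mul_div_cancel (by positivity) (by simp)]
    _ ≤ 2 ^ d * g x := by gcongr

/-- The size of a separated subset of `K`. -/
theorem sep_card (K : Set E) (hK : Convex ℝ K) (hKc : IsCompact K)
    (hKi : (interior K).Nonempty) (p : E) (hp : μ K ≤ 2 ^ finrank ℝ E * μ (symPart K p))
    (δ : ℝ) (hδ : 0 < δ) (A : Finset E) (hA : ∀ a ∈ A, a ∈ K)
    (hsep : ∀ a ∈ A, ∀ b ∈ A, a ≠ b → ∀ s ∈ symPart K p, a ≠ b + δ • s) :
    (A.card : ℝ) ≤ (2 + 4 / δ) ^ finrank ℝ E := by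
  classical
  set d := finrank ℝ E with hd
  set S := symPart K p with hS
  have hSc : IsClosed S := by
    have h1 : IsClosed K := hKc.isClosed
    exact (h1.preimage (continuous_const.add continuous_id)).inter
      (h1.preimage (continuous_const.sub continuous_id))
  have hSconv : Convex ℝ S := symPart_convex hK p
  have hμ0 : μ K ≠ 0 := fun h => by
    have h1 := isOpen_interior.measure_pos μ hKi
    have h2 : μ (interior K) ≤ μ K := measure_mono interior_subset
    rw [h] at h2
    exact absurd h1 (not_lt.mpr h2)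
  have hμf : μ K ≠ ⊤ := hKc.measure_lt_top.ne
  have hS0 : μ S ≠ 0 := by
    intro h
    rw [h, mul_zero] at hp
    exact hμ0 (le_antisymm hp zero_le)
  have hSK : S ⊆ (fun s => p + s) ⁻¹' K := fun s hs => hs.1
  have hSf : μ S ≠ ⊤ := by
    refine ne_top_of_le_ne_top hμf ?_
    calc μ S ≤ μ ((fun s => p + s) ⁻¹' K) := measure_mono hSK
      _ = μ K := measure_preimage_add μ p K
  have hKr : 0 < μ.real K := ENNReal.toReal_pos hμ0 hμf
  have hSr : 0 < μ.real S := ENNReal.toReal_pos hS0 hSf
  have hpr : μ.real K ≤ 2 ^ d * μ.real S := by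
    have h1 := ENNReal.toReal_mono (ENNReal.mul_ne_top (by simp) hSf) hp
    rw [ENNReal.toReal_mul, ENNReal.toReal_pow] at h1
    simpa [measureReal_def] using h1
  have hδ2 : 0 < δ / 2 := by positivity
  -- the sets `a + (δ / 2) S`
  let B : E → Set E := fun a => (fun z => -a + z) ⁻¹' ((δ / 2) • S)
  have hBm : ∀ a, MeasurableSet (B a) := by
    intro a
    exact (measurable_const.add measurable_id)
      ((hSc.smul_of_ne_zero hδ2.ne').measurableSet)
  have hBμ : ∀ a, μ.real (B a) = (δ / 2) ^ d * μ.real S := by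
    intro a
    rw [measureReal_def, measure_preimage_add, Measure.addHaar_smul,
      abs_of_nonneg (by positivity), ENNReal.toReal_mul, ENNReal.toReal_ofReal (by positivity)]
    rfl
  have hdisj : (A : Set E).PairwiseDisjoint B := by
    intro a ha b hb hab
    rw [Function.onFun, Set.disjoint_left]
    rintro z ⟨s, hs, hsz⟩ ⟨t, ht, htz⟩
    refine hsep a ha b hb hab ((1 / 2 : ℝ) • t + (1 / 2 : ℝ) • (-s))
      (hSconv ht (symPart_neg hs) (by norm_num) (by norm_num) (by norm_num)) ?_
    simp only at hsz htz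
    have e1 : a = z - (δ / 2) • s := by rw [hsz]; abel
    have e2 : b = z - (δ / 2) • t := by rw [htz]; abel
    rw [e2]
    nth_rewrite 1 [e1]
    rw [smul_add, smul_smul, smul_smul, smul_neg]
    have e3 : δ * (1 / 2) = δ / 2 := by ring
    rw [e3]
    abel
  let M : Set E := (fun z => (δ / 2) • p + z) ⁻¹' ((1 + δ / 2) • K)
  have hsub : (⋃ a ∈ A, B a) ⊆ M := by
    intro z hz
    rw [Set.mem_iUnion₂] at hz
    obtain ⟨a, ha, s, hs, hsz⟩ := hz
    simp only at hsz
    have h1 := hK (hA a ha) hs.1 (show (0 : ℝ) ≤ 1 / (1 + δ / 2) by positivity)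
      (show (0 : ℝ) ≤ (δ / 2) / (1 + δ / 2) by positivity) (by field_simp)
    refine ⟨_, h1, ?_⟩
    simp only [smul_add, smul_smul]
    rw [mul_one_div_cancel (by positivity : (1 + δ / 2) ≠ 0), one_smul,
      mul_div_cancel₀ _ (by positivity : (1 + δ / 2) ≠ 0), hsz]
    abel
  have hMf : μ M ≠ ⊤ := by
    have : μ M = μ ((1 + δ / 2) • K) := measure_preimage_add μ _ _
    rw [this]
    exact (hKc.smul _).measure_lt_top.ne
  have hMr : μ.real M = (1 + δ / 2) ^ d * μ.real K := by
    have : μ M = μ ((1 + δ / 2) • K) := measure_preimage_add μ _ _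
    rw [measureReal_def, this, Measure.addHaar_smul, abs_of_nonneg (by positivity),
      ENNReal.toReal_mul, ENNReal.toReal_ofReal (by positivity)]
    rfl
  have h1 : μ.real (⋃ a ∈ A, B a) = ∑ a ∈ A, μ.real (B a) :=
    measureReal_biUnion_finset hdisj (fun a _ => hBm a)
      (fun a _ => by
        have : μ (B a) = μ ((δ / 2) • S) := measure_preimage_add μ _ _
        rw [this, Measure.addHaar_smul]
        exact ENNReal.mul_ne_top ENNReal.ofReal_ne_top hSf)
  have h2 : μ.real (⋃ a ∈ A, B a) ≤ μ.real M := measureReal_mono hsub hMf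
  rw [h1] at h2
  simp only [hBμ] at h2
  rw [Finset.sum_const, nsmul_eq_mul, hMr] at h2
  have h3 : (A.card : ℝ) * ((δ / 2) ^ d * μ.real S) ≤
      (1 + δ / 2) ^ d * (2 ^ d * μ.real S) := h2.trans (by gcongr)
  have h4 : (A.card : ℝ) * (δ / 2) ^ d ≤ ((1 + δ / 2) * 2) ^ d := by
    refine le_of_mul_le_mul_right ?_ hSr
    rw [mul_pow]
    linarith
  have h5 : (2 + 4 / δ) = ((1 + δ / 2) * 2) / (δ / 2) := by field_simp; ring
  rw [h5, div_pow, le_div_iff₀ (by positivity)]
  exact h4

omit [MeasurableSpace E] [BorelSpace E] in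
/-- A net of `K` with respect to the symmetric part of `K`. -/
theorem exists_net (K : Set E) (hK : Convex ℝ K) (hKc : IsCompact K)
    (hKi : (interior K).Nonempty) (δ : ℝ) (hδ : 0 < δ) :
    ∃ (p : E) (A : Finset E), (∀ a ∈ A, a ∈ K) ∧
      (∀ y ∈ K, ∃ a ∈ A, ∃ s, p + s ∈ K ∧ y = a + δ • s) ∧
      (A.card : ℝ) ≤ (2 + 4 / δ) ^ finrank ℝ E := by
  classical
  borelize E
  let μ : Measure E := Measure.addHaar
  obtain ⟨p, hp⟩ := exists_symPart μ K hK hKc hKi
  let P : Finset E → Prop := fun A => (∀ a ∈ A, a ∈ K) ∧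
    (∀ a ∈ A, ∀ b ∈ A, a ≠ b → ∀ s ∈ symPart K p, a ≠ b + δ • s)
  have hcardb : ∀ A, P A → (A.card : ℝ) ≤ (2 + 4 / δ) ^ finrank ℝ E := fun A hA =>
    sep_card μ K hK hKc hKi p hp δ hδ A hA.1 hA.2
  let N : Set ℕ := {n | ∃ S, P S ∧ S.card = n}
  have hNne : N.Nonempty := ⟨0, ∅, ⟨by simp, by simp⟩, rfl⟩
  have hNb : BddAbove N := by
    refine ⟨⌊(2 + 4 / δ) ^ finrank ℝ E⌋₊, ?_⟩
    rintro n ⟨S, hS, rfl⟩
    exact Nat.le_floor (hcardb S hS)
  obtain ⟨A, hA, hcard⟩ := Nat.sSup_mem hNne hNb
  refine ⟨p, A, hA.1, ?_, hcardb A hA⟩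
  intro x hx
  by_contra hcon
  push Not at hcon
  have hcon' : ∀ a ∈ A, ∀ s ∈ symPart K p, x ≠ a + δ • s := fun a ha s hs => hcon a ha s hs.1
  obtain ⟨z, hz⟩ := hKi
  have hA0 : A.Nonempty := by
    rw [Finset.nonempty_iff_ne_empty]
    rintro rfl
    have hP : P {x} := by
      constructor
      · intro a ha
        rw [Finset.mem_singleton] at ha
        rw [ha]; exact hx
      · intro a ha b hb hab
        rw [Finset.mem_singleton] at ha hb
        exact absurd (ha.trans hb.symm) hab
    have hle : ({x} : Finset E).card ≤ sSup N := le_csSup hNb ⟨_, hP, rfl⟩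
    rw [← hcard] at hle
    simp at hle
  have hS0 : (0 : E) ∈ symPart K p := by
    have : (symPart K p).Nonempty := by
      rw [Set.nonempty_iff_ne_empty]
      intro h
      rw [h, measure_empty, mul_zero] at hp
      have h1 := isOpen_interior.measure_pos μ ⟨z, hz⟩
      have h2 : μ (interior K) ≤ μ K := measure_mono interior_subset
      exact absurd (h1.trans_le (h2.trans hp)) (lt_irrefl _)
    obtain ⟨s, hs⟩ := this
    have := symPart_convex hK p hs (symPart_neg hs) (show (0:ℝ) ≤ 1/2 by norm_num)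
      (show (0:ℝ) ≤ 1/2 by norm_num) (by norm_num)
    simpa using this
  have hxS : x ∉ A := by
    intro h
    have := hcon' x h 0 hS0
    simp at this
  have hP : P (insert x A) := by
    constructor
    · intro s hs
      rcases Finset.mem_insert.mp hs with rfl | hs
      · exact hx
      · exact hA.1 s hs
    · intro a ha b hb hne s hs
      rcases Finset.mem_insert.mp ha with h1 | ha <;> rcases Finset.mem_insert.mp hb with h2 | hb
      · exact absurd (h1.trans h2.symm) hne
      · rw [h1]; exact hcon' b hb s hs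
      · rw [h2]
        intro h
        refine hcon' a ha (-s) (symPart_neg hs) ?_
        rw [h, smul_neg]
        abel
      · exact hA.2 a ha b hb hne s hs
  have hle : (insert x A).card ≤ sSup N := le_csSup hNb ⟨_, hP, rfl⟩
  rw [Finset.card_insert_of_notMem hxS] at hle
  omega

end Geo

end Pool.Agent.N605.RB
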