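import Mathlib
import Pool.Agent.H2R2.Cov2
import Pool.Agent.N605.RB.Sym

set_option autoImplicit false

/-!
Greedy covering of a convex body by translates of its interior.
-/

namespace Pool.Agent.N605.RB

open MeasureTheory Module
open scoped Pointwise
open Pool.Agent.H2R2.Cov

section Geo

variable {E : Type*} [NormedAddCommGroup E] [NormedSpace ℝ E] [FiniteDimensional ℝ E]

/-- One step of the greedy procedure. -/
theorem one_step (K : Set E) (hK : Convex ℝ K) (hKc : IsCompact K)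
    (hKi : (interior K).Nonempty) (l : ℝ) (hl : 0 < l) (A : Finset E) (hA : ∀ x ∈ A, x ∈ K) :
    ∃ (t : E) (B : Finset E), B ⊆ A ∧ (∀ x ∈ A, x ∉ B → x - t ∈ l • K) ∧
      (B.card : ℝ) ≤ (1 - (l / (1 + l)) ^ finrank ℝ E) * A.card := by
  classical
  obtain ⟨t, ht⟩ := exists_heavy K hK hKc hKi A hA (fun _ => 1) (fun _ _ => zero_le_one) l hl
  rw [wt_one] at ht
  rw [Finset.sum_const, nsmul_eq_mul, mul_one] at ht
  refine ⟨t, A.filter (fun x => ¬ (x - t ∈ l • K)), Finset.filter_subset _ _, ?_, ?_⟩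
  · intro x hx hxB
    by_contra h
    exact hxB (Finset.mem_filter.mpr ⟨hx, h⟩)
  · have h1 := Finset.card_filter_add_card_filter_not (s := A) (fun x => x - t ∈ l • K)
    have h2 : ((A.filter (fun x => x - t ∈ l • K)).card : ℝ) +
        ((A.filter (fun x => ¬ (x - t ∈ l • K))).card : ℝ) = A.card := by
      exact_mod_cast h1
    have h3 : (l / (1 + l)) ^ finrank ℝ E * (A.card : ℝ) ≤
        ((A.filter (fun x => x - t ∈ l • K)).card : ℝ) := by
      refine ht.trans (le_of_eq ?_)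
      congr!
    linarith

/-- The greedy procedure with integer rounding. -/
theorem greedy_nat (K : Set E) (hK : Convex ℝ K) (hKc : IsCompact K)
    (hKi : (interior K).Nonempty) (l : ℝ) (hl : 0 < l) (a b : ℕ) (ha : 0 < a) (hba : b ≤ a)
    (hab : (b : ℝ) / a ≤ (l / (1 + l)) ^ finrank ℝ E) (k : ℕ) :
    ∀ n : ℕ, (fun m => m * (a - b) / a)^[k] n = 0 → ∀ A : Finset E, (∀ x ∈ A, x ∈ K) →
      A.card ≤ n → ∃ T : Finset E, T.card ≤ k ∧ ∀ x ∈ A, ∃ t ∈ T, x - t ∈ l • K := by
  classical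
  induction k with
  | zero =>
    intro n hn A _ hAn
    simp only [Function.iterate_zero, id_eq] at hn
    have : A = ∅ := by
      rw [← Finset.card_eq_zero]; omega
    exact ⟨∅, by simp, by simp [this]⟩
  | succ k ih =>
    intro n hn A hA hAn
    rw [Function.iterate_succ_apply] at hn
    obtain ⟨t, B, hBA, hcov, hB⟩ := one_step K hK hKc hKi l hl A hA
    have hBn : B.card ≤ n * (a - b) / a := by
      rw [Nat.le_div_iff_mul_le ha]
      have h1 : (B.card : ℝ) ≤ (1 - (b : ℝ) / a) * n := by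
        refine hB.trans ?_
        have h2 : (A.card : ℝ) ≤ n := by exact_mod_cast hAn
        have h3 : 0 ≤ 1 - (l / (1 + l)) ^ finrank ℝ E := by
          rw [sub_nonneg]
          exact pow_le_one₀ (by positivity) (by rw [div_le_one (by positivity)]; linarith)
        calc (1 - (l / (1 + l)) ^ finrank ℝ E) * (A.card : ℝ)
            ≤ (1 - (l / (1 + l)) ^ finrank ℝ E) * n := by gcongr
          _ ≤ (1 - (b : ℝ) / a) * n := by gcongr
      have ha' : (0 : ℝ) < a := by exact_mod_cast ha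
      have h4 : (B.card : ℝ) * a ≤ n * ((a : ℝ) - b) := by
        calc (B.card : ℝ) * a ≤ (1 - (b : ℝ) / a) * n * a := by gcongr
          _ = n * ((a : ℝ) - b) := by field_simp
      have h5 : (((a - b : ℕ)) : ℝ) = (a : ℝ) - b := by push_cast [hba]; ring
      rw [← h5] at h4
      exact_mod_cast h4
    obtain ⟨T, hT, hTcov⟩ := ih _ hn B (fun x hx => hA x (hBA hx)) hBn
    refine ⟨insert t T, (Finset.card_insert_le _ _).trans (by omega), ?_⟩
    intro x hx
    by_cases hxB : x ∈ B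
    · obtain ⟨s, hs, h⟩ := hTcov x hxB
      exact ⟨s, Finset.mem_insert_of_mem hs, h⟩
    · exact ⟨t, Finset.mem_insert_self _ _, hcov x hx hxB⟩

/-- `k` steps of the greedy procedure. -/
theorem greedy_k (K : Set E) (hK : Convex ℝ K) (hKc : IsCompact K)
    (hKi : (interior K).Nonempty) (l : ℝ) (hl : 0 < l) (A : Finset E) (hA : ∀ x ∈ A, x ∈ K)
    (k : ℕ) : ∃ T B : Finset E, T.card ≤ k ∧ B ⊆ A ∧
      (∀ x ∈ A, x ∉ B → ∃ t ∈ T, x - t ∈ l • K) ∧
      (B.card : ℝ) ≤ (1 - (l / (1 + l)) ^ finrank ℝ E) ^ k * A.card := by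
  classical
  induction k with
  | zero => exact ⟨∅, A, by simp, subset_rfl, fun x hx h => absurd hx h, by simp⟩
  | succ k ih =>
    obtain ⟨T, B, hT, hBA, hcov, hB⟩ := ih
    obtain ⟨t, C, hCB, hcov', hC⟩ := one_step K hK hKc hKi l hl B (fun x hx => hA x (hBA hx))
    refine ⟨insert t T, C, (Finset.card_insert_le _ _).trans (by omega), hCB.trans hBA, ?_, ?_⟩
    · intro x hx hxC
      by_cases hxB : x ∈ B
      · exact ⟨t, Finset.mem_insert_self _ _, hcov' x hxB hxC⟩
      · obtain ⟨s, hs, h⟩ := hcov x hx hxB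
        exact ⟨s, Finset.mem_insert_of_mem hs, h⟩
    · have h3 : 0 ≤ 1 - (l / (1 + l)) ^ finrank ℝ E := by
        rw [sub_nonneg]
        exact pow_le_one₀ (by positivity) (by rw [div_le_one (by positivity)]; linarith)
      calc (C.card : ℝ) ≤ (1 - (l / (1 + l)) ^ finrank ℝ E) * B.card := hC
        _ ≤ (1 - (l / (1 + l)) ^ finrank ℝ E) *
            ((1 - (l / (1 + l)) ^ finrank ℝ E) ^ k * A.card) := by gcongr
        _ = (1 - (l / (1 + l)) ^ finrank ℝ E) ^ (k + 1) * A.card := by ring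

/-- The greedy procedure, with the number of steps estimated by a logarithm. -/
theorem greedy_log (K : Set E) (hK : Convex ℝ K) (hKc : IsCompact K)
    (hKi : (interior K).Nonempty) (l : ℝ) (hl : 0 < l) (A : Finset E) (hA : ∀ x ∈ A, x ∈ K)
    (F N : ℝ) (hF : F = (1 + 1 / l) ^ finrank ℝ E) (hFN : F ≤ N) (hAN : (A.card : ℝ) ≤ N) :
    ∃ T : Finset E, (T.card : ℝ) ≤ 1 + F + F * Real.log (N / F) ∧
      ∀ x ∈ A, ∃ t ∈ T, x - t ∈ l • K := by
  classical
  have hF1 : 1 ≤ F := by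
    rw [hF]
    apply one_le_pow₀
    have : 0 < 1 / l := by positivity
    linarith
  have hF0 : 0 < F := by linarith
  have hq : (l / (1 + l)) ^ finrank ℝ E = 1 / F := by
    rw [hF, one_div, ← inv_pow]
    congr 1
    field_simp
    ring
  have hlog : 0 ≤ Real.log (N / F) := by
    apply Real.log_nonneg
    rwa [one_le_div hF0]
  obtain ⟨k, hk⟩ : ∃ k : ℕ, k = ⌈F * Real.log (N / F)⌉₊ := ⟨_, rfl⟩
  have hk1 : F * Real.log (N / F) ≤ k := by rw [hk]; exact Nat.le_ceil _
  have hk2 : (k : ℝ) < F * Real.log (N / F) + 1 := by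
    rw [hk]; exact Nat.ceil_lt_add_one (by positivity)
  obtain ⟨T, B, hT, hBA, hcov, hB⟩ := greedy_k K hK hKc hKi l hl A hA k
  have hBF : (B.card : ℝ) ≤ F := by
    refine hB.trans ?_
    rw [hq]
    have hN0 : 0 < N := by linarith
    have h1 : (1 - 1 / F) ^ k ≤ F / N := by
      have h2 : 1 - 1 / F ≤ Real.exp (-(1 / F)) := by
        have := Real.add_one_le_exp (-(1 / F))
        linarith
      have h3 : 0 ≤ 1 - 1 / F := by
        rw [sub_nonneg, div_le_one hF0]; exact hF1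
      calc (1 - 1 / F) ^ k ≤ Real.exp (-(1 / F)) ^ k := by gcongr
        _ = Real.exp (-(k / F)) := by
            rw [← Real.exp_nat_mul]
            congr 1
            ring
        _ ≤ Real.exp (-(Real.log (N / F))) := by
            apply Real.exp_le_exp.mpr
            rw [neg_le_neg_iff, le_div_iff₀ hF0]
            linarith
        _ = F / N := by
            rw [Real.exp_neg, Real.exp_log (by positivity), inv_div]
    calc (1 - 1 / F) ^ k * (A.card : ℝ) ≤ F / N * N := by gcongr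
      _ = F := by field_simp
  obtain ⟨z, hz⟩ := hKi
  have hzK := interior_subset hz
  refine ⟨T ∪ B.image (fun x => x - l • z), ?_, ?_⟩
  · have h1 : ((T ∪ B.image (fun x => x - l • z)).card : ℝ) ≤ T.card + B.card := by
      have := (Finset.card_union_le T (B.image (fun x => x - l • z))).trans
        (Nat.add_le_add_left Finset.card_image_le _)
      exact_mod_cast this
    have h2 : (T.card : ℝ) ≤ k := by exact_mod_cast hT
    linarith
  · intro x hx
    by_cases hxB : x ∈ B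
    · refine ⟨x - l • z, Finset.mem_union_right _ (Finset.mem_image_of_mem _ hxB), ?_⟩
      rw [sub_sub_cancel]
      exact Set.smul_mem_smul_set hzK
    · obtain ⟨t, ht, h⟩ := hcov x hx hxB
      exact ⟨t, Finset.mem_union_left _ ht, h⟩

/-- From a net to the body. -/
theorem cover_of_net (K : Set E) (hK : Convex ℝ K) (hKi : (interior K).Nonempty)
    (l δ : ℝ) (hl : 0 < l) (hδ : 0 < δ) (hlδ : l + δ < 1) (p : E) (A T : Finset E)
    (hnet : ∀ y ∈ K, ∃ a ∈ A, ∃ s, p + s ∈ K ∧ y = a + δ • s)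
    (hT : ∀ x ∈ A, ∃ t ∈ T, x - t ∈ l • K) :
    ∃ T' : Finset E, K ⊆ ⋃ t ∈ T', (fun x => t + x) '' interior K ∧ T'.card ≤ T.card := by
  classical
  obtain ⟨z₀, hz₀⟩ := hKi
  set ρ := l + δ with hρ
  have hρ0 : 0 < ρ := by positivity
  refine ⟨T.image (fun t => t - δ • p - (1 - ρ) • z₀), ?_, Finset.card_image_le⟩
  intro y hy
  obtain ⟨x, hx, s, hs, hyx⟩ := hnet y hy
  obtain ⟨t, ht, k₁, hk₁, hk₁'⟩ := hT x hx
  simp only at hk₁'
  have hcomb : (l / ρ) • k₁ + (δ / ρ) • (p + s) ∈ K :=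
    hK hk₁ hs (by positivity) (by positivity) (by field_simp; rw [hρ])
  set k₃ := (l / ρ) • k₁ + (δ / ρ) • (p + s) with hk₃
  have hρk₃ : ρ • k₃ = l • k₁ + δ • (p + s) := by
    rw [hk₃, smul_add, smul_smul, smul_smul, mul_div_cancel₀ _ hρ0.ne',
      mul_div_cancel₀ _ hρ0.ne']
  have hint : (1 - ρ) • z₀ + ρ • k₃ ∈ interior K := by
    refine hK.combo_interior_self_subset_interior (a := 1 - ρ) (b := ρ) (by linarith) hρ0.le
      (by ring) ?_
    exact Set.add_mem_add (Set.smul_mem_smul_set hz₀) (Set.smul_mem_smul_set hcomb)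
  rw [Set.mem_iUnion₂]
  refine ⟨t - δ • p - (1 - ρ) • z₀, Finset.mem_image_of_mem _ ht,
    (1 - ρ) • z₀ + ρ • k₃, hint, ?_⟩
  simp only
  have hx' : x = t + l • k₁ := by rw [hk₁']; abel
  rw [hyx, hx', hρk₃, smul_add]
  abel

/-- The covering theorem with parameters. -/
theorem cover_log (K : Set E) (hK : Convex ℝ K) (hKc : IsCompact K)
    (hKi : (interior K).Nonempty) (l δ : ℝ) (hl : 0 < l) (hδ : 0 < δ) (hlδ : l + δ < 1)
    (F : ℝ) (hF : F = (1 + 1 / l) ^ finrank ℝ E) (hFN : F ≤ (2 + 4 / δ) ^ finrank ℝ E) :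
    ∃ T : Finset E, K ⊆ ⋃ t ∈ T, (fun x => t + x) '' interior K ∧
      (T.card : ℝ) ≤ 1 + F + F * Real.log ((2 + 4 / δ) ^ finrank ℝ E / F) := by
  obtain ⟨p, A, hA, hnet, hcard⟩ := exists_net K hK hKc hKi δ hδ
  obtain ⟨T, hT, hcov⟩ := greedy_log K hK hKc hKi l hl A hA F _ hF hFN hcard
  obtain ⟨T', hT', hle⟩ := cover_of_net K hK hKi l δ hl hδ hlδ p A T hnet hcov
  exact ⟨T', hT', le_trans (by exact_mod_cast hle) hT⟩

/-- The covering theorem with integer rounding. -/
theorem cover_nat (K : Set E) (hK : Convex ℝ K) (hKc : IsCompact K)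
    (hKi : (interior K).Nonempty) (l δ : ℝ) (hl : 0 < l) (hδ : 0 < δ) (hlδ : l + δ < 1)
    (a b n k : ℕ) (ha : 0 < a) (hba : b ≤ a)
    (hab : (b : ℝ) / a ≤ (l / (1 + l)) ^ finrank ℝ E)
    (hn : (2 + 4 / δ) ^ finrank ℝ E < n + 1)
    (hk : (fun m => m * (a - b) / a)^[k] n = 0) :
    ∃ T : Finset E, K ⊆ ⋃ t ∈ T, (fun x => t + x) '' interior K ∧ T.card ≤ k := by
  obtain ⟨p, A, hA, hnet, hcard⟩ := exists_net K hK hKc hKi δ hδ
  have hAn : A.card ≤ n := by
    have h1 : (A.card : ℝ) < n + 1 := hcard.trans_lt hn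
    have h2 : A.card < n + 1 := by exact_mod_cast h1
    omega
  obtain ⟨T, hT, hcov⟩ := greedy_nat K hK hKc hKi l hl a b ha hba hab k n hk A hA hAn
  obtain ⟨T', hT', hle⟩ := cover_of_net K hK hKi l δ hl hδ hlδ p A T hnet hcov
  exact ⟨T', hT', hle.trans hT⟩

end Geo

end Pool.Agent.N605.RB
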