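import Mathlib
import Pool.Agent.N605.RB.Cover

set_option autoImplicit false

/-!
`c(K) ≤ 2 ^ d (d log d + d log log d + 7 d / 2)` for all convex bodies of dimension `d ≥ 3`.
-/

namespace Pool.Agent.N605.RB

open MeasureTheory Module
open scoped Pointwise

theorem exp_le_of_le {u c : ℝ} (h0 : 0 ≤ u) (h1 : u ≤ c) (h2 : c ≤ 1) :
    Real.exp u ≤ 1 + u * (1 + c) := by
  have h := Real.abs_exp_sub_one_sub_id_le (x := u) (by rw [abs_of_nonneg h0]; linarith)
  have h3 := (abs_le.mp h).2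
  nlinarith

theorem log_le_lin {x : ℝ} (hx : 0 < x) : Real.log x ≤ x / 12 + 1.485 := by
  have h1 : Real.log (x / 12) ≤ x / 12 - 1 := Real.log_le_sub_one_of_pos (by positivity)
  have h2 : Real.log (x / 12) = Real.log x - Real.log 12 := Real.log_div hx.ne' (by norm_num)
  have h3 : Real.log 12 = 2 * Real.log 2 + Real.log 3 := by
    rw [show (12 : ℝ) = 2 ^ 2 * 3 by norm_num, Real.log_mul (by norm_num) (by norm_num),
      Real.log_pow]
    norm_num
  have h4 := Real.log_two_lt_d9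
  have h5 := Real.log_three_lt_d9
  linarith

theorem log_283 : Real.log 2.83 ≤ 1.0403 := by
  have h1 : Real.log 2.83 = Real.log 2 + Real.log 1.415 := by
    rw [← Real.log_mul (by norm_num) (by norm_num)]
    norm_num
  have h2 : 2 * Real.log 1.415 = Real.log 2 + Real.log 1.0011125 := by
    rw [← Real.log_mul (by norm_num) (by norm_num)]
    have h3 : (2 : ℝ) * 1.0011125 = 1.415 ^ 2 := by norm_num
    rw [h3, Real.log_pow]
    norm_num
  have h3 : Real.log 1.0011125 ≤ 1.0011125 - 1 := Real.log_le_sub_one_of_pos (by norm_num)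
  have h4 := Real.log_two_lt_d9
  linarith

/-- The numerical estimate. -/
theorem num_bound (d : ℕ) (hd : 3 ≤ d) (x ρ F : ℝ) (hx : x = Real.log d + 2)
    (hρ : ρ = 2 / (d * x)) (hF : F = (1 + 1 / (1 - ρ)) ^ d) :
    0 < ρ ∧ ρ < 1 / 4 ∧ 1 + F + F * (d * Real.log (d * x / 0.9)) ≤
      2 ^ d * (d * Real.log d + d * Real.log (Real.log d) + 7 / 2 * d) := by
  have hd3 : (3 : ℝ) ≤ d := by exact_mod_cast hd
  have hd0 : (0 : ℝ) < d := by linarith
  obtain ⟨L, hL⟩ : ∃ L : ℝ, L = Real.log d := ⟨_, rfl⟩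
  have hL1 : 1.0986 ≤ L := by
    rw [hL]
    have h1 : Real.log 3 ≤ Real.log d := Real.log_le_log (by norm_num) hd3
    have h2 := Real.log_three_gt_d9
    linarith
  rw [← hL] at hx ⊢
  have hx1 : 3.0986 ≤ x := by linarith
  have hx0 : 0 < x := by linarith
  have hdx : 9.2958 ≤ d * x := by nlinarith
  have hρ0 : 0 < ρ := by rw [hρ]; positivity
  have hρ1 : ρ ≤ 0.21516 := by
    rw [hρ, div_le_iff₀ (by positivity)]
    linarith
  refine ⟨hρ0, by linarith, ?_⟩
  have h1ρ : 0 < 1 - ρ := by linarith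
  -- the exponential factor
  obtain ⟨u, hu⟩ : ∃ u : ℝ, u = 1 / (x * (1 - ρ)) := ⟨_, rfl⟩
  have hu0 : 0 ≤ u := by rw [hu]; positivity
  have hu1 : u ≤ 1.2742 / x := by
    rw [hu, div_le_div_iff₀ (by positivity) hx0]
    nlinarith
  have hu2 : u ≤ 0.4113 := by
    refine hu1.trans ?_
    rw [div_le_iff₀ hx0]
    linarith
  have hexp : Real.exp u ≤ 1 + 1.8 / x := by
    have h1 := exp_le_of_le hu0 hu2 (by norm_num)
    have h2 : u * (1 + 0.4113) ≤ 1.8 / x := by
      rw [le_div_iff₀ hx0]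
      have h3 : u * x ≤ 1.2742 := by
        rw [le_div_iff₀ hx0] at hu1
        exact hu1
      nlinarith
    linarith
  have hF1 : F ≤ 2 ^ d * (1 + 1.8 / x) := by
    have h1 : 1 + 1 / (1 - ρ) = 2 * (1 + ρ / (2 * (1 - ρ))) := by
      field_simp
      ring
    have h2 : 1 + ρ / (2 * (1 - ρ)) ≤ Real.exp (ρ / (2 * (1 - ρ))) := by
      have := Real.add_one_le_exp (ρ / (2 * (1 - ρ)))
      linarith
    rw [hF, h1, mul_pow]
    have h3 : (1 + ρ / (2 * (1 - ρ))) ^ d ≤ Real.exp u := by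
      calc (1 + ρ / (2 * (1 - ρ))) ^ d ≤ Real.exp (ρ / (2 * (1 - ρ))) ^ d := by gcongr
        _ = Real.exp u := by
            rw [← Real.exp_nat_mul]
            congr 1
            rw [hu]
            have : (d : ℝ) * (ρ / (2 * (1 - ρ))) = (d * x * ρ / 2) / (x * (1 - ρ)) := by
              field_simp
            rw [this]
            congr 1
            rw [hρ]
            field_simp
    gcongr
    exact h3.trans hexp
  -- the logarithms
  have hlog1 : Real.log (d * x / 0.9) ≤ L + Real.log x + 1 / 9 := by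
    have h1 : (d : ℝ) * x / 0.9 = d * x * (10 / 9) := by ring
    rw [h1, Real.log_mul (by positivity) (by norm_num), Real.log_mul hd0.ne' hx0.ne', ← hL]
    have h2 : Real.log (10 / 9) ≤ 10 / 9 - 1 := Real.log_le_sub_one_of_pos (by norm_num)
    linarith
  have hlog2 : Real.log x ≤ Real.log L + 1.0403 := by
    have h1 : x ≤ 2.83 * L := by rw [hx]; linarith
    have h2 : Real.log x ≤ Real.log (2.83 * L) := Real.log_le_log hx0 h1
    rw [Real.log_mul (by norm_num) (by linarith)] at h2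
    linarith [log_283]
  have hlog3 := log_le_lin hx0
  have hlogx0 : 0 ≤ Real.log x := Real.log_nonneg (by linarith)
  have h2d : (8 : ℝ) ≤ 2 ^ d := by
    calc (8 : ℝ) = 2 ^ 3 := by norm_num
      _ ≤ 2 ^ d := pow_le_pow_right₀ (by norm_num) hd
  obtain ⟨P, hP⟩ : ∃ P : ℝ, P = (2 : ℝ) ^ d := ⟨_, rfl⟩
  rw [← hP] at h2d hF1 ⊢
  obtain ⟨G, hG⟩ : ∃ G : ℝ, G = 1 + d * (L + Real.log x + 1 / 9) := ⟨_, rfl⟩
  have hG0 : 0 ≤ G := by rw [hG]; positivity
  have h1 : 1 + F + F * (d * Real.log (d * x / 0.9)) ≤ 1 + F * G := by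
    have h2 : 0 ≤ F := by rw [hF]; positivity
    have h3 : F * (d * Real.log (d * x / 0.9)) ≤ F * (d * (L + Real.log x + 1 / 9)) := by
      gcongr
    rw [hG]
    linarith
  have h2 : F * G ≤ P * (1 + 1.8 / x) * G := mul_le_mul_of_nonneg_right hF1 hG0
  have h3 : (1 + 1.8 / x) * G ≤ d * L + d * Real.log x + 1 + 2.0614 * d := by
    have h4 : 1.8 / x * G ≤ 1.9502 * d := by
      rw [div_mul_eq_mul_div, div_le_iff₀ hx0]
      have h5 : G ≤ d * (x + x / 12 - 0.0705) := by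
        rw [hG]
        have h6 : L = x - 2 := by linarith
        rw [h6]
        have h7 : (1 : ℝ) ≤ d * (1 / 3) := by linarith
        have h8 : d * Real.log x ≤ d * (x / 12 + 1.485) := by gcongr
        nlinarith
      nlinarith
    have h5 : (1 + 1.8 / x) * G = G + 1.8 / x * G := by ring
    rw [h5]
    have h6 : G = 1 + (d * L + d * Real.log x + d * (1 / 9)) := by rw [hG]; ring
    linarith
  have h4 : (1 + 1.8 / x) * G ≤ d * L + d * Real.log L + (2.0614 + 1.0403) * d + 1 := by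
    have h5 : d * Real.log x ≤ d * (Real.log L + 1.0403) := by gcongr
    linarith
  have h5 : (1 + 1.8 / x) * G + 1 / 8 ≤ d * L + d * Real.log L + 7 / 2 * d := by
    have : (1.125 : ℝ) ≤ 0.3983 * d := by linarith
    linarith
  calc 1 + F + F * (d * Real.log (d * x / 0.9)) ≤ 1 + P * (1 + 1.8 / x) * G := by linarith
    _ ≤ P * (1 / 8) + P * ((1 + 1.8 / x) * G) := by linarith
    _ = P * ((1 + 1.8 / x) * G + 1 / 8) := by ring
    _ ≤ P * (d * L + d * Real.log L + 7 / 2 * d) := by gcongr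

section Geo

variable {E : Type*} [NormedAddCommGroup E] [NormedSpace ℝ E] [FiniteDimensional ℝ E]

/-- Rogers' bound. -/
theorem rogers (K : Set E) (hK : Convex ℝ K) (hKc : IsCompact K)
    (hKi : (interior K).Nonempty) (d : ℕ) (hd : 3 ≤ d) (hE : finrank ℝ E = d) :
    ∃ T : Finset E, K ⊆ ⋃ t ∈ T, (fun x => t + x) '' interior K ∧
      (T.card : ℝ) ≤ 2 ^ d * (d * Real.log d + d * Real.log (Real.log d) + 7 / 2 * d) := by
  obtain ⟨hρ0, hρ1, hnum⟩ := num_bound d hd _ _ _ rfl rfl rfl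
  obtain ⟨x, hx⟩ : ∃ x : ℝ, x = Real.log d + 2 := ⟨_, rfl⟩
  obtain ⟨ρ, hρ⟩ : ∃ ρ : ℝ, ρ = 2 / (d * x) := ⟨_, rfl⟩
  rw [← hx, ← hρ] at hρ0 hρ1 hnum
  obtain ⟨F, hF⟩ : ∃ F : ℝ, F = (1 + 1 / (1 - ρ)) ^ d := ⟨_, rfl⟩
  rw [← hF] at hnum
  have hd3 : (3 : ℝ) ≤ d := by exact_mod_cast hd
  have hd0 : (0 : ℝ) < d := by linarith
  have hx0 : 0 < x := by
    rw [hx]
    have := Real.log_nonneg (show (1 : ℝ) ≤ d by linarith)
    linarith
  have h1ρ : 0 < 1 - ρ := by linarith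
  have hδ : 0 < 0.9 * ρ := by positivity
  have e1 : 1 / (1 - ρ) ≤ 2 := by
    rw [div_le_iff₀ h1ρ]; linarith
  have e0 : 0 < 1 / (1 - ρ) := by positivity
  have e2 : 0 < 4 / (0.9 * ρ) := by positivity
  have hFN : F ≤ (2 + 4 / (0.9 * ρ)) ^ d := by
    rw [hF]
    have e3 : (1 : ℝ) ≤ 4 / (0.9 * ρ) := by
      rw [le_div_iff₀ hδ]; linarith
    apply pow_le_pow_left₀ (by positivity)
    linarith
  obtain ⟨T, hT, hcard⟩ := cover_log K hK hKc hKi (1 - ρ) (0.9 * ρ) h1ρ hδ (by linarith) F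
    (by rw [hE]; exact hF) (by rw [hE]; exact hFN)
  refine ⟨T, hT, hcard.trans (le_trans ?_ hnum)⟩
  rw [hE]
  have hF0 : 0 < F := by rw [hF]; positivity
  have hlog : Real.log ((2 + 4 / (0.9 * ρ)) ^ d / F) ≤ d * Real.log (d * x / 0.9) := by
    have h1 : (2 + 4 / (0.9 * ρ)) ^ d / F ≤ (d * x / 0.9) ^ d := by
      rw [hF, ← div_pow]
      have h2 : (2 + 4 / (0.9 * ρ)) / (1 + 1 / (1 - ρ)) ≤ d * x / 0.9 := by
        have h3 : (d : ℝ) * x / 0.9 = 2 / (0.9 * ρ) := by
          rw [hρ]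
          field_simp
        rw [h3, div_le_iff₀ (by positivity)]
        have h4 : 2 / (0.9 * ρ) * (1 + 1 / (1 - ρ)) - (2 + 4 / (0.9 * ρ)) =
            (2 / (0.9 * ρ)) * (1 / (1 - ρ) - 1 - 0.9 * ρ) := by
          field_simp
          ring
        have h5 : 0 ≤ 1 / (1 - ρ) - 1 - 0.9 * ρ := by
          have h6 : 1 + 0.9 * ρ ≤ 1 / (1 - ρ) := by
            rw [le_div_iff₀ h1ρ]
            nlinarith
          linarith
        have h7 : 0 ≤ (2 / (0.9 * ρ)) * (1 / (1 - ρ) - 1 - 0.9 * ρ) := by positivity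
        linarith
      gcongr
    calc Real.log ((2 + 4 / (0.9 * ρ)) ^ d / F) ≤ Real.log ((d * x / 0.9) ^ d) :=
          Real.log_le_log (by positivity) h1
      _ = d * Real.log (d * x / 0.9) := Real.log_pow _ _
  have := mul_le_mul_of_nonneg_left hlog hF0.le
  linarith

end Geo

end Pool.Agent.N605.RB
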