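import Mathlib
import Pool.Agent.N605.RB.Cover

set_option autoImplicit false

/-!
Explicit bounds in dimensions five to ten.
-/

namespace Pool.Agent.N605.RB

open MeasureTheory Module
open scoped Pointwise

section Geo

variable {E : Type*} [NormedAddCommGroup E] [NormedSpace ℝ E] [FiniteDimensional ℝ E]

theorem dim5 (K : Set E) (hK : Convex ℝ K) (hKc : IsCompact K)
    (hKi : (interior K).Nonempty) (hE : finrank ℝ E = 5) :
    ∃ T : Finset E, K ⊆ ⋃ t ∈ T, (fun x => t + x) '' interior K ∧ T.card ≤ 642 := by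
  refine cover_nat K hK hKc hKi (0.894 - 1 / 10 ^ 9) 0.106 (by norm_num) (by norm_num)
    (by norm_num) (10 ^ 9) 23430832 99063230 642 (by norm_num) (by norm_num) ?_ ?_ ?_
  · rw [hE]; norm_num
  · rw [hE]; norm_num
  · decide +kernel

theorem dim6 (K : Set E) (hK : Convex ℝ K) (hKc : IsCompact K)
    (hKi : (interior K).Nonempty) (hE : finrank ℝ E = 6) :
    ∃ T : Finset E, K ⊆ ⋃ t ∈ T, (fun x => t + x) '' interior K ∧ T.card ≤ 1628 := by
  refine cover_nat K hK hKc hKi (0.912 - 1 / 10 ^ 9) 0.088 (by norm_num) (by norm_num)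
    (by norm_num) (10 ^ 9) 11777190 11420021119 1628 (by norm_num) (by norm_num) ?_ ?_ ?_
  · rw [hE]; norm_num
  · rw [hE]; norm_num
  · decide +kernel

theorem dim7 (K : Set E) (hK : Convex ℝ K) (hKc : IsCompact K)
    (hKi : (interior K).Nonempty) (hE : finrank ℝ E = 7) :
    ∃ T : Finset E, K ⊆ ⋃ t ∈ T, (fun x => t + x) '' interior K ∧ T.card ≤ 3968 := by
  refine cover_nat K hK hKc hKi (0.926 - 1 / 10 ^ 9) 0.074 (by norm_num) (by norm_num)
    (by norm_num) (10 ^ 9) 5938584 1738798255907 3968 (by norm_num) (by norm_num) ?_ ?_ ?_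
  · rw [hE]; norm_num
  · rw [hE]; norm_num
  · decide +kernel

theorem dim8 (K : Set E) (hK : Convex ℝ K) (hKc : IsCompact K)
    (hKi : (interior K).Nonempty) (hE : finrank ℝ E = 8) :
    ∃ T : Finset E, K ⊆ ⋃ t ∈ T, (fun x => t + x) '' interior K ∧ T.card ≤ 9398 := by
  refine cover_nat K hK hKc hKi (0.936 - 1 / 10 ^ 9) 0.064 (by norm_num) (by norm_num)
    (by norm_num) (10 ^ 9) 2985134 299555789145860 9398 (by norm_num) (by norm_num) ?_ ?_ ?_
  · rw [hE]; norm_num
  · rw [hE]; norm_num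
  · decide +kernel

theorem dim9 (K : Set E) (hK : Convex ℝ K) (hKc : IsCompact K)
    (hKi : (interior K).Nonempty) (hE : finrank ℝ E = 9) :
    ∃ T : Finset E, K ⊆ ⋃ t ∈ T, (fun x => t + x) '' interior K ∧ T.card ≤ 21793 := by
  refine cover_nat K hK hKc hKi (0.945 - 1 / 10 ^ 9) 0.055 (by norm_num) (by norm_num)
    (by norm_num) (10 ^ 9) 1508724 72662810442629695 21793 (by norm_num) (by norm_num) ?_ ?_ ?_
  · rw [hE]; norm_num
  · rw [hE]; norm_num
  · decide +kernel

theorem dim10 (K : Set E) (hK : Convex ℝ K) (hKc : IsCompact K)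
    (hKi : (interior K).Nonempty) (hE : finrank ℝ E = 10) :
    ∃ T : Finset E, K ⊆ ⋃ t ∈ T, (fun x => t + x) '' interior K ∧ T.card ≤ 49709 := by
  refine cover_nat K hK hKc hKi (0.951 - 1 / 10 ^ 9) 0.049 (by norm_num) (by norm_num)
    (by norm_num) (10 ^ 9) 757238 16740126687594652546 49709 (by norm_num) (by norm_num) ?_ ?_ ?_
  · rw [hE]; norm_num
  · rw [hE]; norm_num
  · decide +kernel

end Geo

end Pool.Agent.N605.RB
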